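import Pool.Agent.H84.NT.Targets

/-!
# Crossing lower bound for general windows
-/

open MeasureTheory ProbabilityTheory
open scoped ENNReal

namespace Pool.Agent.H64.NT

open Pool.Agent.H99.NS Pool.Agent.H22.LPP Pool.Agent.H95.INS Pool.Agent.H84.NT

theorem pow16' (k : ℕ) : (16 : ℝ) ^ k = (4 ^ k) ^ 2 := by
  rw [← pow_mul, mul_comm k 2, pow_mul]
  norm_num

theorem pow64' (k : ℕ) : (64 : ℝ) ^ k = (4 ^ k) ^ 3 := by
  rw [← pow_mul, mul_comm k 3, pow_mul]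
  norm_num

/-- Powers of the height of the slab. -/
theorem heights' (k m R L : ℕ) (hk : 1 + 8 * (32 * R) ≤ k) (hm : 1 ≤ m)
    (hL : L = m * 64 ^ (k - 1)) :
    0 < (L : ℝ) ^ ((1:ℝ) / 3) ∧ (L : ℝ) ^ ((1:ℝ) / 3) ≤ m * 4 ^ k ∧
    (16 : ℝ) ^ (k - 1) ≤ (L : ℝ) ^ ((2:ℝ) / 3) ∧ (32 * R) * (16 : ℝ) ^ (k - 1) ≤ XL L := by
  have hm' : (1:ℝ) ≤ m := by exact_mod_cast hm
  have hLr : (L : ℝ) = m * 64 ^ (k - 1) := by rw [hL]; push_cast; ring
  have hL0 : (0 : ℝ) < L := by rw [hLr]; positivity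
  set z : ℝ := (L : ℝ) ^ ((1:ℝ) / 3) with hz
  have hz0 : 0 < z := Real.rpow_pos_of_pos hL0 _
  have cube : ∀ a : ℝ, 0 ≤ a → (a ^ 3) ^ ((1:ℝ) / 3) = a := by
    intro a ha
    rw [← Real.rpow_natCast, ← Real.rpow_mul ha]
    norm_num
  have hz1 : (4 : ℝ) ^ (k - 1) ≤ z := by
    rw [← cube (4 ^ (k - 1)) (by positivity), hz]
    refine Real.rpow_le_rpow (by positivity) ?_ (by norm_num)
    rw [hLr, ← pow64']
    nlinarith [pow_pos (show (0:ℝ) < 64 by norm_num) (k - 1)]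
  have h4k : (4 : ℝ) ^ (k - 1) ≤ 4 ^ k := pow_le_pow_right₀ (by norm_num) (by omega)
  have hz2 : z ≤ m * 4 ^ k := by
    rw [← cube (m * 4 ^ k) (by positivity), hz]
    refine Real.rpow_le_rpow hL0.le ?_ (by norm_num)
    rw [hLr, mul_pow, ← pow64']
    have h1 : (m : ℝ) ≤ m ^ 3 := by
      calc (m : ℝ) = m ^ 1 := (pow_one _).symm
        _ ≤ m ^ 3 := pow_le_pow_right₀ hm' (by norm_num)
    have h2 : (64 : ℝ) ^ (k - 1) ≤ 64 ^ k := pow_le_pow_right₀ (by norm_num) (by omega)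
    exact mul_le_mul h1 h2 (by positivity) (by positivity)
  have e2 : (L : ℝ) ^ ((2:ℝ) / 3) = z ^ 2 := by
    rw [hz, ← Real.rpow_natCast, ← Real.rpow_mul hL0.le]
    norm_num
  have e3 : XL L = z ^ 2 * z ^ ((1:ℝ) / 8) := by
    rw [XL, hz, ← Real.rpow_natCast, ← Real.rpow_mul hL0.le, ← Real.rpow_mul hL0.le,
      ← Real.rpow_add hL0]
    norm_num
  have h8 : (32 * R : ℝ) ≤ z ^ ((1:ℝ) / 8) := by
    have h9 : ((32 * R : ℝ) ^ (8 : ℕ)) ^ ((1:ℝ) / 8) = 32 * R := by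
      rw [← Real.rpow_natCast, ← Real.rpow_mul (by positivity)]
      norm_num
    have h10 : ((32 * R : ℝ) ^ (8 : ℕ)) ≤ z := by
      refine le_trans ?_ hz1
      have h11 : (32 * R : ℝ) ≤ 4 ^ (32 * R) := by
        have : 32 * R < 4 ^ (32 * R) := Nat.lt_pow_self (by norm_num)
        exact_mod_cast this.le
      calc (32 * R : ℝ) ^ (8 : ℕ) ≤ (4 ^ (32 * R)) ^ 8 :=
            pow_le_pow_left₀ (by positivity) h11 8
        _ = 4 ^ ((32 * R) * 8) := by rw [← pow_mul]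
        _ ≤ 4 ^ (k - 1) := pow_le_pow_right₀ (by norm_num) (by omega)
    calc (32 * R : ℝ) = ((32 * R : ℝ) ^ (8 : ℕ)) ^ ((1:ℝ) / 8) := h9.symm
      _ ≤ z ^ ((1:ℝ) / 8) := Real.rpow_le_rpow (by positivity) h10 (by norm_num)
  have hz4 : (16 : ℝ) ^ (k - 1) ≤ z ^ 2 := by
    have h5 : ((4 : ℝ) ^ (k - 1)) ^ 2 ≤ z ^ 2 := pow_le_pow_left₀ (by positivity) hz1 2
    rwa [← pow16'] at h5
  refine ⟨hz0, hz2, by rw [e2]; exact hz4, ?_⟩
  rw [e3, mul_comm]
  exact mul_le_mul hz4 h8 (by positivity) (by positivity)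

theorem pf_GBL : T_GBL := by
  intro hB q hq0 hq1 m R hm hR
  obtain ⟨C, c, hC, hc, h⟩ := hB q hq0 hq1
  have hm' : (1:ℝ) ≤ m := by exact_mod_cast hm
  refine ⟨(32 * R + 1) ^ 2 * (C * Real.exp c), c / m, by positivity, by positivity,
    1 + 8 * (32 * R), by omega, fun k hk s t hst Y hY => ?_⟩
  obtain ⟨L, hL⟩ : ∃ L : ℕ, L = m * 64 ^ (k - 1) := ⟨_, rfl⟩
  have hts : t = s + L := by
    rw [hL]
    push_cast
    linarith
  obtain ⟨hz0, hz1, hz2, hz3⟩ := heights' k m R L hk hm hL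
  have hLpos : 1 ≤ L := by
    have : 0 < m * 64 ^ (k - 1) := by positivity
    omega
  set D : ℤ := 16 ^ (k - 1) with hD
  have hD0 : 0 < D := by positivity
  have hDk : (16 : ℤ) ^ k = 16 * D := by
    rw [hD, ← pow_succ', Nat.sub_add_cancel (by omega)]
  have hDr : (D : ℝ) = (16 : ℝ) ^ (k - 1) := by
    rw [hD]; push_cast; ring
  have hwin : ∀ x : ℤ, |x| ≤ R * 16 ^ k → ∃ i : ℤ, i ∈ Finset.Icc (-(16 * R) : ℤ) (16 * R) ∧
      |((x - i * D : ℤ) : ℝ)| ≤ (L : ℝ) ^ ((2:ℝ) / 3) := by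
    intro x hx
    rw [hDk, abs_le] at hx
    refine ⟨x / D, ?_, ?_⟩
    · rw [Finset.mem_Icc]
      constructor
      · rw [Int.le_ediv_iff_mul_le hD0]
        nlinarith [hx.1]
      · have h1 : x ≤ 16 * R * D := by nlinarith [hx.2]
        have := Int.ediv_le_ediv hD0 h1
        rwa [Int.mul_ediv_cancel _ hD0.ne'] at this
    · have h1 := Int.emod_nonneg x hD0.ne'
      have h2 := Int.emod_lt_of_pos x hD0
      have h3 : x - x / D * D = x % D := by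
        have := Int.emod_add_mul_ediv x D
        linarith [mul_comm D (x / D)]
      rw [h3]
      rw [← Int.cast_abs, abs_of_nonneg h1]
      refine le_trans ?_ hz2
      rw [← hDr]
      exact_mod_cast h2.le
  set Ev : ℤ × ℤ → Set Env := fun p => {ω | ∃ x y : ℤ,
    Reach (((s, p.1 * D) : Site).1, x) (((s, p.1 * D) : Site).1 + L, y) ∧
      |((x - ((s, p.1 * D) : Site).2 : ℤ) : ℝ)| ≤ (L : ℝ) ^ (2 / 3 : ℝ) ∧
      |((y - (((s, p.1 * D) : Site).2 + (p.2 - p.1) * D) : ℤ) : ℝ)| ≤ (L : ℝ) ^ (2 / 3 : ℝ) ∧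
      T ω (((s, p.1 * D) : Site).1, x) (((s, p.1 * D) : Site).1 + L, y) ≤
        par q (((s, p.1 * D) : Site).1, x) (((s, p.1 * D) : Site).1 + L, y) -
          Y / m * (L : ℝ) ^ (1 / 3 : ℝ)} with hEv
  have hYm : 0 ≤ Y / m := by positivity
  have hY32 : Y / m - 1 ≤ (Y / m) ^ ((3:ℝ) / 2) := by
    rcases le_or_gt 1 (Y / m) with h1 | h1
    · have : (Y / m) ^ (1 : ℝ) ≤ (Y / m) ^ ((3:ℝ) / 2) :=
        Real.rpow_le_rpow_of_exponent_le h1 (by norm_num)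
      rw [Real.rpow_one] at this
      linarith
    · have : 0 ≤ (Y / m) ^ ((3:ℝ) / 2) := Real.rpow_nonneg hYm _
      linarith
  have hexp : C * Real.exp (-c * (Y / m) ^ (3 / 2 : ℝ)) ≤
      C * Real.exp c * Real.exp (-(c / m * Y)) := by
    rw [mul_assoc, ← Real.exp_add]
    refine mul_le_mul_of_nonneg_left (Real.exp_le_exp.mpr ?_) hC.le
    have e : c / m * Y = c * (Y / m) := by ring
    rw [e]
    nlinarith [mul_le_mul_of_nonneg_left hY32 hc.le]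
  have hEvp : ∀ p ∈ Finset.Icc (-(16 * R) : ℤ) (16 * R) ×ˢ Finset.Icc (-(16 * R) : ℤ) (16 * R),
      (PE q).real (Ev p) ≤ C * Real.exp c * Real.exp (-(c / m * Y)) := by
    intro p hp
    rw [Finset.mem_product, Finset.mem_Icc, Finset.mem_Icc] at hp
    have hE : |(((p.2 - p.1) * D : ℤ) : ℝ)| ≤ XL L := by
      refine le_trans ?_ hz3
      have h1 : |(p.2 - p.1) * D| ≤ (32 * R) * D := by
        rw [abs_mul, abs_of_pos hD0]
        refine mul_le_mul_of_nonneg_right ?_ hD0.le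
        rw [abs_le]
        constructor <;> linarith [hp.1.1, hp.1.2, hp.2.1, hp.2.2]
      have h2 : |(((p.2 - p.1) * D : ℤ) : ℝ)| ≤ (32 * R) * (D : ℝ) := by
        rw [← Int.cast_abs]
        exact_mod_cast h1
      refine h2.trans (le_of_eq ?_)
      rw [hDr]
    exact (h L hLpos (s, p.1 * D) ((p.2 - p.1) * D) hE (Y / m) hYm).trans hexp
  have hsub : {ω | ∃ x y : ℤ, |x| ≤ R * 16 ^ k ∧ |y| ≤ R * 16 ^ k ∧
      Reach (s, x) (t, y) ∧ T ω (s, x) (t, y) < par q (s, x) (t, y) - Y * 4 ^ k} ⊆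
      ⋃ p ∈ Finset.Icc (-(16 * R) : ℤ) (16 * R) ×ˢ Finset.Icc (-(16 * R) : ℤ) (16 * R),
        Ev p := by
    rintro ω ⟨x, y, hx, hy, hR, hT⟩
    obtain ⟨i, hi, hi2⟩ := hwin x hx
    obtain ⟨j, hj, hj2⟩ := hwin y hy
    rw [Set.mem_iUnion₂]
    refine ⟨(i, j), Finset.mem_product.mpr ⟨hi, hj⟩, x, y, ?_, hi2, ?_, ?_⟩
    · rw [← hts]
      exact hR
    · have : y - (i * D + (j - i) * D) = y - j * D := by ring
      rw [this]
      exact hj2
    · rw [← hts]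
      refine hT.le.trans ?_
      have h5 : Y / m * (L : ℝ) ^ (1 / 3 : ℝ) ≤ Y / m * (m * 4 ^ k) :=
        mul_le_mul_of_nonneg_left hz1 hYm
      have h6 : Y / m * (m * 4 ^ k) = Y * 4 ^ k := by
        have : (m:ℝ) ≠ 0 := by positivity
        field_simp
      linarith
  calc (PE q).real _ ≤ (PE q).real
        (⋃ p ∈ Finset.Icc (-(16 * R) : ℤ) (16 * R) ×ˢ Finset.Icc (-(16 * R) : ℤ) (16 * R),
          Ev p) := measureReal_mono hsub (measure_ne_top _ _)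
    _ ≤ ∑ p ∈ Finset.Icc (-(16 * R) : ℤ) (16 * R) ×ˢ Finset.Icc (-(16 * R) : ℤ) (16 * R),
          (PE q).real (Ev p) := measureReal_biUnion_finset_le _ _
    _ ≤ ∑ p ∈ Finset.Icc (-(16 * R) : ℤ) (16 * R) ×ˢ Finset.Icc (-(16 * R) : ℤ) (16 * R),
          C * Real.exp c * Real.exp (-(c / m * Y)) := Finset.sum_le_sum hEvp
    _ = (32 * R + 1) ^ 2 * (C * Real.exp c) * Real.exp (-(c / m * Y)) := by
        have h9 : ((Finset.Icc (-(16 * R) : ℤ) (16 * R)).card : ℝ) = 32 * R + 1 := by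
          rw [Int.card_Icc]
          have : (16 * (R:ℤ) + 1 - -(16 * R)).toNat = 32 * R + 1 := by omega
          rw [this]
          push_cast
          ring
        rw [Finset.sum_const, Finset.card_product, nsmul_eq_mul]
        push_cast
        rw [h9]
        ring

end Pool.Agent.H64.NT
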