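import Pool.Agent.H84.NT.Targets
import Pool.Agent.H97.NF.Pair

/-!
# Harris inequality for functions of finitely many sites
-/

open MeasureTheory ProbabilityTheory
open scoped ENNReal

namespace Pool.Agent.H64.NT

open Pool.Agent.H99.NS Pool.Agent.H22.LPP Pool.Agent.H95.INS Pool.Agent.H84.NT

/-- Functions of finitely many sites are measurable. -/
theorem meas_dep {S : Finset Site} {f : Env → ℝ} (hf : DepOn (S : Set Site) f) :
    Measurable f := by
  classical
  let r : Env → (S → ℕ) := fun ω x => ω x
  have hr : Measurable r := by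
    refine measurable_pi_lambda _ fun x => ?_
    exact measurable_pi_apply _
  let F : (S → ℕ) → ℝ := fun y => f (fun x => if h : x ∈ S then y ⟨x, h⟩ else 0)
  have hF : Measurable F := measurable_of_countable F
  have : f = F ∘ r := by
    funext ω
    refine hf ω _ fun x hx => ?_
    have hx' : x ∈ S := hx
    simp only [r, hx', dif_pos]
  rw [this]
  exact hF.comp hr

/-- Association inequality in one variable. -/
theorem cheb1 (m : Measure ℕ) [IsProbabilityMeasure m] (a b : ℕ → ℝ) (ha : Monotone a)
    (hb : Monotone b) {C D : ℝ} (hA : ∀ k, |a k| ≤ C) (hB : ∀ k, |b k| ≤ D) :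
    (∫ k, a k ∂m) * ∫ k, b k ∂m ≤ ∫ k, a k * b k ∂m := by
  have hC : 0 ≤ C := (abs_nonneg _).trans (hA 0)
  have ia : Integrable a m :=
    Integrable.of_bound (measurable_of_countable a).aestronglyMeasurable C
      (Filter.Eventually.of_forall fun k => by rw [Real.norm_eq_abs]; exact hA k)
  have ib : Integrable b m :=
    Integrable.of_bound (measurable_of_countable b).aestronglyMeasurable D
      (Filter.Eventually.of_forall fun k => by rw [Real.norm_eq_abs]; exact hB k)
  have iab : Integrable (fun k => a k * b k) m :=
    Integrable.of_bound (measurable_of_countable _).aestronglyMeasurable (C * D)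
      (Filter.Eventually.of_forall fun k => by
        rw [Real.norm_eq_abs, abs_mul]
        exact mul_le_mul (hA k) (hB k) (abs_nonneg _) hC)
  set A := ∫ k, a k ∂m with hAd
  set B := ∫ k, b k ∂m with hBd
  set M := ∫ k, a k * b k ∂m with hMd
  have h1 : ∀ k, 0 ≤ a k * b k - a k * B - A * b k + M := by
    intro k
    have h2 : ∫ l, (a k - a l) * (b k - b l) ∂m = a k * b k - a k * B - A * b k + M := by
      have e : ∀ l, (a k - a l) * (b k - b l) = a k * b k - a k * b l - b k * a l + a l * b l := by
        intro l; ring
      simp only [e]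
      rw [integral_add, integral_sub, integral_sub, integral_const, integral_const_mul,
        integral_const_mul]
      · simp only [probReal_univ, one_smul]
        ring
      · exact integrable_const _
      · exact ib.const_mul _
      · exact (integrable_const _).sub (ib.const_mul _)
      · exact ia.const_mul _
      · exact ((integrable_const _).sub (ib.const_mul _)).sub (ia.const_mul _)
      · exact iab
    rw [← h2]
    refine integral_nonneg fun l => ?_
    simp only [Pi.zero_apply]
    rcases le_total k l with h | h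
    · exact mul_nonneg_of_nonpos_of_nonpos (sub_nonpos.2 (ha h)) (sub_nonpos.2 (hb h))
    · exact mul_nonneg (sub_nonneg.2 (ha h)) (sub_nonneg.2 (hb h))
  have h3 : ∫ k, (a k * b k - a k * B - A * b k + M) ∂m = 2 * M - 2 * (A * B) := by
    rw [integral_add, integral_sub, integral_sub, integral_const, integral_const_mul,
      integral_mul_const]
    · simp only [probReal_univ, one_smul]
      ring
    · exact iab
    · exact ia.mul_const _
    · exact iab.sub (ia.mul_const _)
    · exact ib.const_mul _
    · exact (iab.sub (ia.mul_const _)).sub (ib.const_mul _)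
    · exact integrable_const _
  have h4 : 0 ≤ ∫ k, (a k * b k - a k * B - A * b k + M) ∂m := integral_nonneg h1
  rw [h3] at h4
  linarith

/-- Bounded functions of finitely many sites are integrable. -/
theorem int_dep {S : Finset Site} {f : Env → ℝ} (q : ℝ) (hf : DepOn (S : Set Site) f) {C : ℝ}
    (hC : ∀ ω, |f ω| ≤ C) : Integrable f (PE q) :=
  Integrable.of_bound (meas_dep hf).aestronglyMeasurable C
    (Filter.Eventually.of_forall fun k => by rw [Real.norm_eq_abs]; exact hC k)

/-- Averaging one coordinate. -/
noncomputable def av (q : ℝ) (x : Site) (f : Env → ℝ) (ω : Env) : ℝ :=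
  ∫ k, f (Function.update ω x k) ∂(geo q)

theorem av_int {S : Finset Site} {f : Env → ℝ} (q : ℝ) (x : Site)
    (hf : DepOn (S : Set Site) f) {C : ℝ} (hC : ∀ ω, |f ω| ≤ C) :
    ∫ ω, f ω ∂(PE q) = ∫ ω, av q x f ω ∂(PE q) := by
  have h := Pool.Agent.H97.NF.mp_updPE q x
  have hm := meas_dep hf
  have h1 : ∫ ω, f ω ∂(PE q) =
      ∫ p : Env × ℕ, f (Function.update p.1 x p.2) ∂((PE q).prod (geo q)) := by
    conv_lhs => rw [← h.map_eq]
    exact integral_map h.measurable.aemeasurable hm.aestronglyMeasurable
  rw [h1, integral_prod]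
  · rfl
  · exact Integrable.of_bound (hm.comp h.measurable).aestronglyMeasurable C
      (Filter.Eventually.of_forall fun k => by rw [Real.norm_eq_abs]; exact hC _)

theorem av_dep {S : Finset Site} {f : Env → ℝ} (q : ℝ) (x : Site)
    (hf : DepOn ((insert x S : Finset Site) : Set Site) f) :
    DepOn (S : Set Site) (av q x f) := by
  intro ω ω' h
  unfold av
  congr 1
  funext k
  refine hf _ _ fun y hy => ?_
  by_cases hyx : y = x
  · subst hyx; simp
  · rw [Function.update_of_ne hyx, Function.update_of_ne hyx]
    refine h y ?_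
    have : y ∈ insert x S := hy
    exact (Finset.mem_insert.1 this).resolve_left hyx

theorem av_bdd {f : Env → ℝ} (q : ℝ) (x : Site) {C : ℝ} (hC : ∀ ω, |f ω| ≤ C) (ω : Env) :
    |av q x f ω| ≤ C := by
  have := norm_integral_le_of_norm_le_const (μ := geo q) (C := C)
    (f := fun k => f (Function.update ω x k))
    (Filter.Eventually.of_forall fun k => by rw [Real.norm_eq_abs]; exact hC _)
  rw [probReal_univ, mul_one] at this
  exact this

theorem int_row {f : Env → ℝ} (q : ℝ) (x : Site) {C : ℝ} (hC : ∀ ω, |f ω| ≤ C) (ω : Env) :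
    Integrable (fun k => f (Function.update ω x k)) (geo q) :=
  Integrable.of_bound (measurable_of_countable _).aestronglyMeasurable C
    (Filter.Eventually.of_forall fun k => by rw [Real.norm_eq_abs]; exact hC _)

theorem av_mono {f : Env → ℝ} (q : ℝ) (x : Site) {C : ℝ} (hC : ∀ ω, |f ω| ≤ C)
    (hf : Monotone f) : Monotone (av q x f) := by
  intro ω ω' h
  refine integral_mono (int_row q x hC ω) (int_row q x hC ω') fun k => ?_
  refine hf ?_
  exact update_le_update_iff.2 ⟨le_rfl, fun y _ => h y⟩

theorem pf_HAR : T_HAR := by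
  intro q S
  classical
  induction S using Finset.induction_on with
  | empty =>
    intro f g hf hg _ _ _ _
    have h1 : ∀ ω, f ω = f 0 := fun ω => hf ω 0 (by simp)
    have h2 : ∀ ω, g ω = g 0 := fun ω => hg ω 0 (by simp)
    simp only [h1, h2, integral_const, probReal_univ, one_smul, le_refl]
  | insert x S hx ih =>
    rintro f g hf hg mf mg ⟨C, hC⟩ ⟨D, hD⟩
    have hC0 : 0 ≤ C := (abs_nonneg _).trans (hC 0)
    have hfg : DepOn ((insert x S : Finset Site) : Set Site) (fun ω => f ω * g ω) := by
      intro ω ω' h
      simp only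
      rw [hf ω ω' h, hg ω ω' h]
    have hCD : ∀ ω, |f ω * g ω| ≤ C * D := by
      intro ω
      rw [abs_mul]
      exact mul_le_mul (hC ω) (hD ω) (abs_nonneg _) hC0
    rw [av_int q x hf hC, av_int q x hg hD, av_int q x hfg hCD]
    refine le_trans (ih (av q x f) (av q x g) (av_dep q x hf) (av_dep q x hg)
      (av_mono q x hC mf) (av_mono q x hD mg) ⟨C, av_bdd q x hC⟩ ⟨D, av_bdd q x hD⟩) ?_
    have hdep : DepOn (S : Set Site) (fun ω => av q x f ω * av q x g ω) := by
      intro ω ω' h
      simp only
      rw [av_dep q x hf ω ω' h, av_dep q x hg ω ω' h]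
    refine integral_mono (int_dep q hdep (C := C * D) fun ω => ?_)
      (int_dep q (av_dep q x hfg) (av_bdd q x hCD)) fun ω => ?_
    · rw [abs_mul]
      exact mul_le_mul (av_bdd q x hC ω) (av_bdd q x hD ω) (abs_nonneg _) hC0
    · exact cheb1 (geo q) (fun k => f (Function.update ω x k))
        (fun k => g (Function.update ω x k))
        (fun k l h => mf (update_le_update_iff.2 ⟨h, fun _ _ => le_rfl⟩))
        (fun k l h => mg (update_le_update_iff.2 ⟨h, fun _ _ => le_rfl⟩))
        (fun k => hC _) (fun k => hD _)

end Pool.Agent.H64.NT
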