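import Pool.Agent.H84.NT.Targets3

/-!
# Dependence of the local goodness of a block
-/

open MeasureTheory ProbabilityTheory
open scoped ENNReal

namespace Pool.Agent.H64.NT

open Pool.Agent.H99.NS Pool.Agent.H22.LPP Pool.Agent.H95.INS Pool.Agent.H84.NT

/-- The sites which matter. -/
def US (D : Dat) : Set Site := {x : Site | -(256 * D.n) < x.1 ∧ x.1 ≤ 256 * D.n ∧ |x.2| < 2 * D.X}

theorem US_finite (D : Dat) : (US D).Finite := by
  refine Set.Finite.subset (Finset.finite_toSet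
    (Finset.Icc ((-(256 * D.n), -(2 * D.X)) : Site) (256 * D.n, 2 * D.X))) ?_
  rintro x ⟨h1, h2, h3⟩
  rw [abs_lt] at h3
  rw [Finset.coe_Icc, Set.mem_Icc, Prod.le_def, Prod.le_def]
  exact ⟨⟨h1.le, h3.1.le⟩, h2, h3.2.le⟩

/-- The cut environments agree in the slab. -/
theorem cutS_agree {D : Dat} {ω ω' : Env} (h : ∀ x ∈ US D, ω x = ω' x) (z : Site)
    (h1 : -(256 * D.n) < z.1) (h2 : z.1 ≤ 256 * D.n) : cutS D ω z = cutS D ω' z := by
  unfold cutS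
  by_cases hz : 2 * D.X ≤ |z.2|
  · rw [if_pos ⟨h1, h2, hz⟩, if_pos ⟨h1, h2, hz⟩]
  · rw [if_neg (fun h => hz h.2.2), if_neg (fun h => hz h.2.2)]
    exact h z ⟨h1, h2, not_le.1 hz⟩

theorem LBd_congr {D : Dat} {ω ω' : Env} {s t : ℤ}
    (h : ∀ z : Site, -(256 * D.n) < z.1 → z.1 ≤ 256 * D.n → ω z = ω' z)
    (hs : -(256 * D.n) ≤ s) (ht : t ≤ 256 * D.n) : LBd D ω s t ↔ LBd D ω' s t := by
  have key : ∀ x y : ℤ, T ω (s, x) (t, y) = T ω' (s, x) (t, y) := fun x y =>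
    T_congr_slab fun z h1 h2 => h z (lt_of_le_of_lt hs h1) (le_trans h2 ht)
  unfold LBd
  simp only [key]

theorem O1_congr {D : Dat} {ω ω' : Env}
    (h : ∀ z : Site, -(256 * D.n) < z.1 → z.1 ≤ 256 * D.n → ω z = ω' z) (h1 : O1 D ω) :
    O1 D ω' := by
  intro s t g hs hst ht hg hs' ht'
  have key : wt ω' s t g = wt ω s t g :=
    wt_congr fun r h1 h2 => (h (r, g r) (lt_of_le_of_lt hs h1) (le_trans h2 ht)).symm
  rw [key]
  exact h1 s t g hs hst ht hg hs' ht'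

theorem O2_congr {D : Dat} {ω ω' : Env} (hn : 0 ≤ D.n)
    (h : ∀ z : Site, -(256 * D.n) < z.1 → z.1 ≤ 256 * D.n → ω z = ω' z) (h1 : O2 D ω) :
    O2 D ω' where
  a := (LBd_congr h le_rfl (by linarith)).1 h1.a
  b := (LBd_congr h (by linarith) le_rfl).1 h1.b
  c := (LBd_congr h (by linarith) (by linarith)).1 h1.c
  d := (LBd_congr h le_rfl (by linarith)).1 h1.d
  e := (LBd_congr h (by linarith) le_rfl).1 h1.e

/-- Conditional probabilities of events of the wide strip. -/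
theorem Pin_congr {D : Dat} {ω ω' : Env} {E : Env → Prop} {S : Set Site}
    (hE : DepOn S E) (h : ∀ x ∈ S, ω x = ω' x) : Pin D ω E = Pin D ω' E := by
  have key : ∀ ω1 : Env, E (splice (Bx D) ω1 ω) = E (splice (Bx D) ω1 ω') := by
    intro ω1
    apply hE
    intro x hx
    by_cases hb : x ∈ Bx D
    · rw [splice_of_mem _ _ hb, splice_of_mem _ _ hb]
    · rw [splice_of_not_mem _ _ hb, splice_of_not_mem _ _ hb]
      exact h x hx
  unfold Pin
  simp only [key]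

theorem FC_congr (h_DEP : T_DEP) {D : Dat} {ω ω' : Env} (hn : 0 ≤ D.n)
    (h : ∀ x ∈ Wd D (-(4 * D.n)) (4 * D.n), ω x = ω' x) (hF : FC D ω) : FC D ω' := by
  have hW : ∀ {s t : ℤ}, -(4 * D.n) ≤ s → t ≤ 4 * D.n →
      Wd D s t ⊆ Wd D (-(4 * D.n)) (4 * D.n) := by
    intro s t hs ht x hx
    exact ⟨lt_of_le_of_lt hs hx.1, le_trans hx.2.1 ht, hx.2.2⟩
  have hU : ∀ {s t : ℤ} (c : ℝ), -(4 * D.n) ≤ s → t ≤ 4 * D.n →
      DepOn (Wd D (-(4 * D.n)) (4 * D.n)) (fun ω => UB D ω s t c) := fun {s t} c hs ht =>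
    (h_DEP D s t c 0 0).1.mono (hW hs ht)
  have hN : ∀ {s t : ℤ} (c : ℝ), -(4 * D.n) ≤ s → t ≤ 4 * D.n →
      DepOn (Wd D (-(4 * D.n)) (4 * D.n)) (fun ω => ND D ω s t c) := fun {s t} c hs ht =>
    (h_DEP D s t c 0 0).2.1.mono (hW hs ht)
  have hnot : ∀ {E : Env → Prop}, DepOn (Wd D (-(4 * D.n)) (4 * D.n)) E →
      DepOn (Wd D (-(4 * D.n)) (4 * D.n)) (fun ω => ¬ E ω) := by
    intro E hE ω1 ω2 h12
    show (¬ E ω1) = (¬ E ω2)
    rw [hE ω1 ω2 h12]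
  have hSm : DepOn (Wd D (-(4 * D.n)) (4 * D.n)) (fun ω => Sm D ω) := by
    intro ω1 ω2 h12
    have e1 := hU (s := -(4 * D.n)) (t := -(3 * D.n)) (1 / 1000) le_rfl (by linarith) ω1 ω2 h12
    have e2 := hU (s := -(2 * D.n)) (t := 2 * D.n) (1 / 1000) (by linarith) (by linarith)
      ω1 ω2 h12
    have e3 := hU (s := 3 * D.n) (t := 4 * D.n) (1 / 1000) (by linarith) (by linarith) ω1 ω2 h12
    simp only [eq_iff_iff] at e1 e2 e3 ⊢
    exact ⟨fun h => ⟨e1.1 h.s1, e2.1 h.s2, e3.1 h.s3⟩,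
      fun h => ⟨e1.2 h.s1, e2.2 h.s2, e3.2 h.s3⟩⟩
  have hCU : DepOn (Wd D (-(4 * D.n)) (4 * D.n)) (fun ω => CU D ω) := (h_DEP D 0 0 0 0 0).2.2.1
  refine ⟨?_, ?_, ?_, ?_, ?_, ?_⟩
  · rw [← Pin_congr (hnot (hU (1001 / 1000) (by linarith) (by linarith))) h]
    exact hF.u1
  · rw [← Pin_congr (hnot (hU (1001 / 1000) (by linarith) (by linarith))) h]
    exact hF.u2
  · rw [← Pin_congr (hnot (hN (974 / 1000) (by linarith) (by linarith))) h]
    exact hF.d1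
  · rw [← Pin_congr (hnot (hN (974 / 1000) (by linarith) (by linarith))) h]
    exact hF.d2
  · rw [← Pin_congr (hnot hSm) h]
    exact hF.sm
  · rw [← Pin_congr (hnot hCU) h]
    exact hF.cu

theorem LG0_mp (h_DEP : T_DEP) {D : Dat} (hD : D.Ok) {ω ω' : Env}
    (h : ∀ x ∈ US D, ω x = ω' x) (hL : LG0 D ω) : LG0 D ω' := by
  obtain ⟨h1, h2, h3⟩ := hL
  have hn := hD.n1
  have hn0 : 0 ≤ D.n := by linarith
  have hc : ∀ z : Site, -(256 * D.n) < z.1 → z.1 ≤ 256 * D.n → cutS D ω z = cutS D ω' z :=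
    cutS_agree h
  refine ⟨O1_congr hc h1, O2_congr hn0 hc h2, FC_congr h_DEP hn0 (fun x hx => h x ?_) h3⟩
  obtain ⟨a, b, c⟩ := hx
  have hX := hD.X1
  have hA := hD.A2
  have hw := hD.w1
  have h0 : 0 < 16 * D.A * D.w := by positivity
  exact ⟨by linarith, by linarith, by linarith⟩

theorem pf_LGD (h_DEP : T_DEP) : T_LGD := by
  intro D hD
  refine ⟨?_, US_finite D⟩
  intro ω ω' h
  have h' : ∀ x ∈ US D, ω x = ω' x := h
  exact propext ⟨LG0_mp h_DEP hD h', LG0_mp h_DEP hD fun x hx => (h' x hx).symm⟩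

end Pool.Agent.H64.NT
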